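import Pool.Agent.H84.FK.Targets2

/-! Module D2 of the board fk2_modules (MP_85c4d1_al). -/

set_option autoImplicit false

namespace Pool.Agent.H24.FKD2

open Pool.Agent.H84.FK

/-- the elements commuting with all conjugates of `x` -/
def cc {G : Type} [Group G] (x : G) : Subgroup G where
  carrier := {v | ∀ g : G, Commute (g * x * g⁻¹) v}
  one_mem' := fun _ => Commute.one_right _
  mul_mem' := fun ha hb g => (ha g).mul_right (hb g)
  inv_mem' := fun ha g => (ha g).inv_right

theorem cc_normal {G : Type} [Group G] (x : G) : (cc x).Normal := by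
  refine ⟨fun n hn g k => ?_⟩
  have h := hn (g⁻¹ * k)
  have h2 := h.conj g
  have e : g * (g⁻¹ * k * x * (g⁻¹ * k)⁻¹) * g⁻¹ = k * x * k⁻¹ := by group
  rw [e] at h2
  exact h2

theorem comm_closure {G : Type} [Group G] (x y : G)
    (hxy : ∀ g : G, (g * x * g⁻¹) * y = y * (g * x * g⁻¹)) :
    ∀ u ∈ Subgroup.normalClosure ({x} : Set G), ∀ v ∈ Subgroup.normalClosure ({y} : Set G),
      u * v = v * u := by
  have := cc_normal x
  have h1 : Subgroup.normalClosure ({y} : Set G) ≤ cc x := by
    apply Subgroup.normalClosure_le_normal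
    intro z hz
    rw [Set.mem_singleton_iff] at hz
    subst hz
    exact fun g => hxy g
  intro u hu v hv
  have := cc_normal v
  have h2 : Subgroup.normalClosure ({x} : Set G) ≤ cc v := by
    apply Subgroup.normalClosure_le_normal
    intro z hz
    rw [Set.mem_singleton_iff] at hz
    subst hz
    intro g
    have hm : g * v * g⁻¹ ∈ Subgroup.normalClosure ({y} : Set G) :=
      (Subgroup.normalClosure_normal).conj_mem v hv g
    have h3 := h1 hm 1
    have h4 : Commute z (g * v * g⁻¹) := by simpa using h3
    exact h4.symm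
  have h3 := h2 hu 1
  have h4 : Commute v u := by simpa using h3
  exact h4.symm.eq

theorem pf_d2 (hD1 : T_D1) : T_D2 := by
  intro G _ A A0 B B0 h x y hx hy hxy
  refine hD1 G A A0 B B0 h (Subgroup.normalClosure {x}) (Subgroup.normalClosure {y})
    Subgroup.normalClosure_normal Subgroup.normalClosure_normal ?_ ?_ (comm_closure x y hxy)
  · intro e
    have hm : x ∈ Subgroup.normalClosure ({x} : Set G) :=
      Subgroup.subset_normalClosure (Set.mem_singleton x)
    rw [e, Subgroup.mem_bot] at hm
    exact hx hm
  · intro e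
    have hm : y ∈ Subgroup.normalClosure ({y} : Set G) :=
      Subgroup.subset_normalClosure (Set.mem_singleton y)
    rw [e, Subgroup.mem_bot] at hm
    exact hy hm

end Pool.Agent.H24.FKD2
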