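import Pool.Agent.H84.FK.Targets2

/-! Module D3 of the board fk2_modules (MP_85c4d1_al). -/

set_option autoImplicit false

namespace Pool.Agent.H24.FKD3

open Pool.Agent.H84.FK

theorem two_left {G : Type} [Group G] {A A0 : Subgroup G} (h : Two A A0) :
    ∃ s : G, ∀ a ∈ A, a ∈ A0 ∨ s⁻¹ * a ∈ A0 := by
  by_cases he : ∃ s ∈ A, s ∉ A0
  · obtain ⟨s, hs, hs0⟩ := he
    refine ⟨s, fun a ha => ?_⟩
    by_cases h0 : a ∈ A0
    · exact Or.inl h0
    · right
      exact h.2 s⁻¹ (A.inv_mem hs) a ha (fun hh => hs0 (by simpa using A0.inv_mem hh)) h0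
  · push Not at he
    exact ⟨1, fun a ha => Or.inl (he a ha)⟩

theorem two_right {G : Type} [Group G] {A A0 : Subgroup G} (h : Two A A0) :
    ∃ s : G, ∀ a ∈ A, a ∈ A0 ∨ a * s ∈ A0 := by
  by_cases he : ∃ s ∈ A, s ∉ A0
  · obtain ⟨s, hs, hs0⟩ := he
    refine ⟨s, fun a ha => ?_⟩
    by_cases h0 : a ∈ A0
    · exact Or.inl h0
    · right
      exact h.2 a ha s hs h0 hs0
  · push Not at he
    exact ⟨1, fun a ha => Or.inl (he a ha)⟩

theorem index_le {G : Type} [Group G] [Finite G] (L : Subgroup G) (s t : G)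
    (h : ∀ g : G, ∃ e f : Bool, (if e then s⁻¹ else 1) * g * (if f then t else 1) ∈ L) :
    L.index ≤ 4 := by
  classical
  have hsurj : Function.Surjective (fun p : (Bool × Bool) × L =>
      (if p.1.1 then s else 1) * (p.2 : G) * (if p.1.2 then t⁻¹ else 1)) := by
    intro g
    obtain ⟨e, f, hm⟩ := h g
    refine ⟨((e, f), ⟨_, hm⟩), ?_⟩
    cases e <;> cases f <;> simp [mul_assoc]
  have hc := Nat.card_le_card_of_surjective _ hsurj
  rw [Nat.card_prod, Nat.card_prod] at hc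
  have hb : Nat.card Bool = 2 := by simp
  rw [hb, ← L.index_mul_card] at hc
  have hpos : 0 < Nat.card L := Nat.card_pos
  nlinarith [hc, hpos]

theorem fac_symm {G : Type} [Group G] {A B : Subgroup G} (h : Fac A B) : Fac B A := by
  intro g
  obtain ⟨a, ha, b, hb, e⟩ := h g⁻¹
  exact ⟨b⁻¹, B.inv_mem hb, a⁻¹, A.inv_mem ha, by rw [← mul_inv_rev, ← e, inv_inv]⟩

theorem inter_one (hF1 : T_F1) (hS4 : T_S4) (hD2 : T_D2) (G : Type) [Group G]
    (A A0 B B0 : Subgroup G) (h : CE2 G A A0 B B0) (x : G) (hA : x ∈ A) (hB : x ∈ B) : x = 1 := by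
  have := h.fin
  by_contra hx
  by_cases hB0 : x ∈ B0
  · by_cases hA0 : x ∈ A0
    · -- case (a)
      set L : Subgroup G := Subgroup.centralizer ({x} : Set G) with hL
      have memL : ∀ g : G, g ∈ L ↔ x * g = g * x := by
        intro g
        rw [hL, Subgroup.mem_centralizer_iff]
        simp
      have hAL : ∀ a ∈ A0, a ∈ L := fun a ha => (memL a).2 (h.abA x hA0 a ha)
      have hBL : ∀ b ∈ B0, b ∈ L := fun b hb => (memL b).2 (h.abB x hB0 b hb)
      obtain ⟨s, hs⟩ := two_left h.twoA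
      obtain ⟨t, ht⟩ := two_right h.twoB
      have hidx : L.index ≤ 4 := by
        apply index_le L s t
        intro g
        obtain ⟨a, ha, b, hb, e⟩ := h.fac g
        subst e
        rcases hs a ha with h1 | h1 <;> rcases ht b hb with h2 | h2
        · refine ⟨false, false, ?_⟩
          have := L.mul_mem (hAL _ h1) (hBL _ h2)
          simpa using this
        · refine ⟨false, true, ?_⟩
          have := L.mul_mem (hAL _ h1) (hBL _ h2)
          simpa [mul_assoc] using this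
        · refine ⟨true, false, ?_⟩
          have := L.mul_mem (hAL _ h1) (hBL _ h2)
          simpa [mul_assoc] using this
        · refine ⟨true, true, ?_⟩
          have := L.mul_mem (hAL _ h1) (hBL _ h2)
          simpa [mul_assoc] using this
      have hcore : L.normalCore ≠ ⊥ := fun hc => h.ns (hS4 G L hc hidx)
      obtain ⟨c, hc, hc1⟩ := (Subgroup.ne_bot_iff_exists_ne_one.1 hcore |>.imp fun c hc => hc)
        |> fun ⟨c, hc⟩ => (⟨(c : G), c.2, fun e => hc (Subtype.ext e)⟩ :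
          ∃ c : G, c ∈ L.normalCore ∧ c ≠ 1)
      refine hD2 G A A0 B B0 h c x hc1 hx (fun g => ?_)
      have : g * c * g⁻¹ ∈ L := hc g
      exact ((memL _).1 this).symm
    · -- `x ∈ A \ A0`, `x ∈ B`
      have hf : Fac A0 B := by
        intro g
        obtain ⟨a, ha, b, hb, e⟩ := h.fac g
        by_cases h0 : a ∈ A0
        · exact ⟨a, h0, b, hb, e⟩
        · refine ⟨a * x⁻¹, h.twoA.2 a ha x⁻¹ (A.inv_mem hA) h0
            (fun hh => hA0 (by simpa using A0.inv_mem hh)), x * b, B.mul_mem hB hb, ?_⟩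
          rw [e]; group
      exact h.ns (hF1 G A0 B B0 hf h.abA h.abB h.twoB)
  · have hf : Fac A B0 := by
      intro g
      obtain ⟨a, ha, b, hb, e⟩ := h.fac g
      by_cases h0 : b ∈ B0
      · exact ⟨a, ha, b, h0, e⟩
      · refine ⟨a * x, A.mul_mem ha hA, x⁻¹ * b, h.twoB.2 x⁻¹ (B.inv_mem hB) b hb
          (fun hh => hB0 (by simpa using B0.inv_mem hh)) h0, ?_⟩
        rw [e]; group
    exact h.ns (hF1 G B0 A A0 (fac_symm hf) h.abB h.abA h.twoA)

theorem pf_d3 (hF1 : T_F1) (hS4 : T_S4) (hD2 : T_D2) : T_D3 := by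
  intro G _ A A0 B B0 h g a b ha hb e
  obtain ⟨a1, ha1, b1, hb1, eg⟩ := h.fac g
  have h1 : a1⁻¹ * a * a1 = b1 * b * b1⁻¹ := by
    rw [e, eg]; group
  have hA : a1⁻¹ * a * a1 ∈ A := A.mul_mem (A.mul_mem (A.inv_mem ha1) ha) ha1
  have hB : a1⁻¹ * a * a1 ∈ B := by
    rw [h1]; exact B.mul_mem (B.mul_mem hb1 hb) (B.inv_mem hb1)
  have h2 := inter_one hF1 hS4 hD2 G A A0 B B0 h _ hA hB
  have h3 : a = a1 * (a1⁻¹ * a * a1) * a1⁻¹ := by group
  rw [h3, h2]; group

end Pool.Agent.H24.FKD3
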